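import Mathlib

set_option autoImplicit false

/-!
Regular sequences in local rings and in polynomial rings.
-/

namespace Pool.Agent.X45.LSS
open RingTheory.Sequence

section
variable {R : Type*} [CommRing R]

/-- Weak regularity in terms of ideals. -/
theorem wr_iff (l : List R) : IsWeaklyRegular R l ↔
    ∀ l₁ x l₂, l = l₁ ++ x :: l₂ → ∀ b, b * x ∈ Ideal.ofList l₁ → b ∈ Ideal.ofList l₁ := by
  rw [isWeaklyRegular_iff]
  constructor
  · intro h l₁ x l₂ hl b hb
    have hi : l₁.length < l.length := by rw [hl]; simp
    have h1 := h l₁.length hi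
    have e1 : l.take l₁.length = l₁ := by rw [hl]; simp
    have e2 : l[l₁.length] = x := by simp [hl]
    rw [e1, e2, isSMulRegular_quotient_iff_mem_of_smul_mem] at h1
    have := h1 b
    rw [smul_eq_mul, Ideal.mul_top, smul_eq_mul, mul_comm] at this
    exact this hb
  · intro h i hi
    rw [isSMulRegular_quotient_iff_mem_of_smul_mem]
    intro b hb
    rw [smul_eq_mul, Ideal.mul_top] at hb ⊢
    have e : l = l.take i ++ l[i] :: l.drop (i + 1) := by
      rw [← List.drop_eq_getElem_cons, List.take_append_drop]
    refine h _ _ _ e b ?_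
    rw [smul_eq_mul, mul_comm] at hb
    exact hb

theorem wr_prefix {l₁ l₂ : List R} (h : IsWeaklyRegular R (l₁ ++ l₂)) : IsWeaklyRegular R l₁ :=
  ((isWeaklyRegular_append_iff R l₁ l₂).1 h).1

theorem mem_ofList {l : List R} {x : R} (h : x ∈ l) : x ∈ Ideal.ofList l :=
  Ideal.subset_span h

theorem ofList_le {l : List R} {I : Ideal R} (h : ∀ x ∈ l, x ∈ I) : Ideal.ofList l ≤ I :=
  Ideal.span_le.2 h

/-- Appending an element that is regular modulo the ideal. -/
theorem wr_snoc {l : List R} {x : R} (h : IsWeaklyRegular R l)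
    (hx : ∀ b, b * x ∈ Ideal.ofList l → b ∈ Ideal.ofList l) : IsWeaklyRegular R (l ++ [x]) := by
  rw [wr_iff] at h ⊢
  intro l₁ y l₂ hl b hb
  rcases List.eq_nil_or_concat l₂ with rfl | ⟨l₃, z, rfl⟩
  · have h1 := List.append_inj' hl (by simp)
    obtain ⟨rfl, h2⟩ := h1
    simp only [List.cons.injEq, and_true] at h2
    subst h2
    exact hx b hb
  · have h1 : l ++ [x] = (l₁ ++ y :: l₃) ++ [z] := by rw [hl]; simp
    have h2 := List.append_inj' h1 (by simp)
    exact h l₁ y l₃ h2.1 b hb

theorem wr_last {l : List R} {x : R} (h : IsWeaklyRegular R (l ++ [x])) :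
    ∀ b, b * x ∈ Ideal.ofList l → b ∈ Ideal.ofList l :=
  fun b hb => (wr_iff _).1 h l x [] rfl b hb

end

section
variable {L : Type*} [CommRing L] [IsLocalRing L]

open IsLocalRing

theorem find_unit (rest : List L) : ∀ (J : Ideal L) (x : L), x ∈ J ⊔ Ideal.ofList rest →
    x ∉ J ⊔ maximalIdeal L * Ideal.ofList rest →
    ∃ (r : L) (rest' : List L) (u : L), IsUnit u ∧ rest.Perm (r :: rest') ∧
      x - u * r ∈ J ⊔ Ideal.ofList rest' := by
  induction rest with
  | nil =>
    intro J x h1 h2
    exfalso
    apply h2
    rw [Ideal.ofList_nil] at h1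
    rw [sup_bot_eq] at h1
    exact (le_sup_left : J ≤ _) h1
  | cons r t ih =>
    intro J x h1 h2
    rw [Ideal.ofList_cons] at h1
    obtain ⟨j, hj, w, hw, rfl⟩ := Submodule.mem_sup.1 h1
    obtain ⟨a', ha', y, hy, rfl⟩ := Submodule.mem_sup.1 hw
    obtain ⟨a, rfl⟩ := Ideal.mem_span_singleton'.1 ha'
    by_cases hu : IsUnit a
    · refine ⟨r, t, a, hu, List.Perm.refl _, ?_⟩
      have : j + (a * r + y) - a * r = j + y := by ring
      rw [this]
      exact Submodule.mem_sup.2 ⟨j, hj, y, hy, rfl⟩
    · have ham : a ∈ maximalIdeal L := (mem_maximalIdeal a).2 hu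
      have har : a * r ∈ maximalIdeal L * Ideal.ofList (r :: t) :=
        Ideal.mul_mem_mul ham (mem_ofList (by simp))
      have h3 : j + y ∈ J ⊔ Ideal.ofList t := Submodule.mem_sup.2 ⟨j, hj, y, hy, rfl⟩
      have h4 : j + y ∉ J ⊔ maximalIdeal L * Ideal.ofList t := by
        intro h5
        apply h2
        have e : j + (a * r + y) = (j + y) + a * r := by ring
        rw [e]
        refine add_mem ?_ ((le_sup_right : _ ≤ J ⊔ _) har)
        refine (sup_le_sup_left ?_ J) h5
        refine Ideal.mul_mono_right ?_
        rw [Ideal.ofList_cons]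
        exact le_sup_right
      obtain ⟨r', t', u, hu', hp, hx⟩ := ih J (j + y) h3 h4
      refine ⟨r', r :: t', u, hu', (hp.cons r).trans (List.Perm.swap r' r t'), ?_⟩
      have e : j + (a * r + y) - u * r' = (j + y - u * r') + a * r := by ring
      rw [e, Ideal.ofList_cons]
      refine add_mem ?_ ?_
      · refine (sup_le_sup_left ?_ J) hx
        exact le_sup_right
      · refine (le_sup_right : _ ≤ J ⊔ _) ((le_sup_left : Ideal.span {r} ≤ _) ?_)
        exact Ideal.mem_span_singleton'.2 ⟨a, rfl⟩

omit [IsLocalRing L] in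
theorem ofList_perm {l l' : List L} (h : l.Perm l') : Ideal.ofList l = Ideal.ofList l' :=
  congrArg Ideal.span (Set.ext fun _ => h.mem_iff)

/-- In a Noetherian local ring, a minimal system of generators of an ideal generated by a regular
sequence is a regular sequence. -/
theorem exchange [IsNoetherianRing L] (I : Ideal L) (hI : I ≤ maximalIdeal L) (f : List L)
    (hf : ∀ x ∈ f, x ∈ I)
    (hmin : ∀ l₁ x l₂, f = l₁ ++ x :: l₂ → x ∉ Ideal.ofList l₁ ⊔ maximalIdeal L * I)
    (g : List L) (hg : IsWeaklyRegular L g) (hgI : Ideal.ofList g = I) :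
    IsWeaklyRegular L f := by
  have key : ∀ l₁ l₂, f = l₁ ++ l₂ → ∃ rest, IsWeaklyRegular L (l₁ ++ rest) ∧
      Ideal.ofList (l₁ ++ rest) = I := by
    intro l₁
    induction l₁ using List.reverseRecOn with
    | nil => exact fun _ _ => ⟨g, hg, hgI⟩
    | append_singleton l₁ x ih =>
      intro l₂ hl
      have hl' : f = l₁ ++ x :: l₂ := by rw [hl]; simp
      obtain ⟨rest, hr, hrI⟩ := ih (x :: l₂) hl'
      have hx : x ∈ I := hf x (by rw [hl']; simp)
      have h1 : x ∈ Ideal.ofList l₁ ⊔ Ideal.ofList rest := by
        rw [← Ideal.ofList_append, hrI]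
        exact hx
      have h2 : x ∉ Ideal.ofList l₁ ⊔ maximalIdeal L * Ideal.ofList rest := by
        intro h
        apply hmin l₁ x l₂ hl'
        have hle : Ideal.ofList rest ≤ I := by
          rw [← hrI, Ideal.ofList_append]
          exact le_sup_right
        have hle2 : Ideal.ofList l₁ ⊔ maximalIdeal L * Ideal.ofList rest ≤
            Ideal.ofList l₁ ⊔ maximalIdeal L * I :=
          sup_le_sup_left (Ideal.mul_mono_right hle) _
        exact hle2 h
      obtain ⟨r, rest', u, hu, hp, hxr⟩ := find_unit rest _ x h1 h2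
      rw [← Ideal.ofList_append] at hxr
      have p1 : (l₁ ++ rest).Perm ((l₁ ++ rest') ++ [r]) := by
        refine (hp.append_left l₁).trans ?_
        rw [List.append_assoc]
        exact (List.perm_append_singleton r rest').symm.append_left l₁
      have m1 : ∀ y ∈ l₁ ++ rest, y ∈ maximalIdeal L := fun y hy => hI (by
        rw [← hrI]; exact mem_ofList hy)
      have w1 : IsWeaklyRegular L ((l₁ ++ rest') ++ [r]) :=
        isWeaklyRegular_of_perm_of_subset_maximalIdeal hr p1 m1
      have w2 : IsWeaklyRegular L ((l₁ ++ rest') ++ [x]) := by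
        refine wr_snoc (wr_prefix w1) fun b hb => ?_
        obtain ⟨v, hv⟩ := hu.exists_left_inv
        have h3 : b * u * r ∈ Ideal.ofList (l₁ ++ rest') := by
          have e : b * u * r = b * x - b * (x - u * r) := by ring
          rw [e]
          exact sub_mem hb (Ideal.mul_mem_left _ _ hxr)
        have h4 := wr_last w1 (b * u) h3
        have e : b = v * (b * u) := by linear_combination (-b) * hv
        rw [e]
        exact Ideal.mul_mem_left _ _ h4
      have e2 : Ideal.ofList ((l₁ ++ rest') ++ [x]) = I := by
        rw [← hrI, ofList_perm p1]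
        apply le_antisymm
        · refine ofList_le fun y hy => ?_
          rcases List.mem_append.1 hy with h | h
          · exact mem_ofList (List.mem_append.2 (Or.inl h))
          · rw [List.mem_singleton] at h
            subst h
            have e : y = (y - u * r) + u * r := by ring
            rw [e, Ideal.ofList_append]
            refine add_mem ((le_sup_left : Ideal.ofList (l₁ ++ rest') ≤ _) hxr) ?_
            refine (le_sup_right : Ideal.ofList [r] ≤ _) (Ideal.mul_mem_left _ _ ?_)
            exact mem_ofList (by simp)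
        · refine ofList_le fun y hy => ?_
          rcases List.mem_append.1 hy with h | h
          · exact mem_ofList (List.mem_append.2 (Or.inl h))
          · rw [List.mem_singleton] at h
            subst h
            obtain ⟨v, hv⟩ := hu.exists_left_inv
            have e : y = v * (x - (x - u * y)) := by linear_combination (-y) * hv
            rw [e, Ideal.ofList_append]
            refine Ideal.mul_mem_left _ _ (sub_mem ?_ ?_)
            · exact (le_sup_right : Ideal.ofList [x] ≤ _) (mem_ofList (by simp))
            · exact (le_sup_left : Ideal.ofList (l₁ ++ rest') ≤ _) hxr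
      have p2 : ((l₁ ++ rest') ++ [x]).Perm ((l₁ ++ [x]) ++ rest') := by
        rw [List.append_assoc, List.append_assoc]
        exact (List.perm_append_comm).append_left l₁
      refine ⟨rest', ?_, ?_⟩
      · refine isWeaklyRegular_of_perm_of_subset_maximalIdeal w2 p2 fun y hy => hI ?_
        rw [← e2]
        exact mem_ofList hy
      · rw [← ofList_perm p2, e2]
  obtain ⟨rest, h1, _⟩ := key f [] (by simp)
  exact wr_prefix h1

end

end Pool.Agent.X45.LSS

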