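import Pool.Agent.X45.LSS.Poly

set_option autoImplicit false

/-!
The generators of the Lovász–Saks–Schrijver ideals of clutters.
-/

namespace Pool.Agent.X45.LSS
open RingTheory.Sequence MvPolynomial

section
variable {n : ℕ} {k : Type*} [Field k]

/-- `f_A`. -/
noncomputable def edgeP (k : Type*) [Field k] {n : ℕ} (d : ℕ) (A : Finset (Fin n)) :
    MvPolynomial (Fin n × Fin d) k :=
  ∑ j : Fin d, ∏ i ∈ A, X (i, j)

/-- The exponent of the product of the variables of `A` in column `j`. -/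
noncomputable def ex {d : ℕ} (A : Finset (Fin n)) (j : Fin d) : Fin n × Fin d →₀ ℕ :=
  ∑ i ∈ A, Finsupp.single (i, j) 1

theorem ex_apply {d : ℕ} (A : Finset (Fin n)) (j : Fin d) (p : Fin n × Fin d) :
    ex A j p = if p.1 ∈ A ∧ p.2 = j then 1 else 0 := by
  unfold ex
  rw [Finsupp.finsetSum_apply]
  have h : ∀ i ∈ A, (Finsupp.single (i, j) 1 : Fin n × Fin d →₀ ℕ) p =
      if i = p.1 then (if p.2 = j then 1 else 0) else 0 := by
    intro i _
    rw [Finsupp.single_apply]
    by_cases h1 : i = p.1 <;> by_cases h2 : p.2 = j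
    · rw [if_pos (Prod.ext h1 h2.symm), if_pos h1, if_pos h2]
    · rw [if_neg (fun h => h2 (by rw [← h])), if_pos h1, if_neg h2]
    · rw [if_neg (fun h => h1 (by rw [← h])), if_neg h1]
    · rw [if_neg (fun h => h1 (by rw [← h])), if_neg h1]
  rw [Finset.sum_congr rfl h, Finset.sum_ite_eq']
  by_cases h1 : p.1 ∈ A <;> by_cases h2 : p.2 = j <;> simp [h1, h2]

theorem prod_X {d : ℕ} (A : Finset (Fin n)) (j : Fin d) :
    (∏ i ∈ A, X (i, j) : MvPolynomial (Fin n × Fin d) k) = monomial (ex A j) 1 := by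
  unfold ex
  rw [monomial_sum_one]
  rfl

theorem edgeP_eq {d : ℕ} (A : Finset (Fin n)) :
    edgeP k d A = ∑ j : Fin d, monomial (ex A j) 1 :=
  Finset.sum_congr rfl fun j _ => prod_X A j

theorem edgeP_homog {d : ℕ} (A : Finset (Fin n)) : (edgeP k d A).IsHomogeneous A.card := by
  unfold edgeP
  refine IsHomogeneous.sum _ _ _ fun j _ => ?_
  have := IsHomogeneous.prod (R := k) A (fun i => X (i, j)) (fun _ => 1)
    (fun i _ => isHomogeneous_X k (i, j))
  simpa using this

theorem edgeP_orig {d : ℕ} {A : Finset (Fin n)} (hA : A.Nonempty) :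
    edgeP k d A ∈ orig (Fin n × Fin d) k := by
  rw [mem_orig]
  by_contra h
  have h1 := (edgeP_homog (k := k) (d := d) A) h
  rw [map_zero] at h1
  have := Finset.card_pos.2 hA
  omega

theorem ex_le {d : ℕ} {A B : Finset (Fin n)} (hB : B.Nonempty) (j j₀ : Fin d) :
    ex B j ≤ ex A j₀ ↔ j = j₀ ∧ B ⊆ A := by
  constructor
  · intro h
    have h1 : ∀ i ∈ B, i ∈ A ∧ j = j₀ := by
      intro i hi
      have h2 := h (i, j)
      rw [ex_apply, ex_apply] at h2
      rw [if_pos ⟨hi, rfl⟩] at h2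
      by_contra h3
      rw [if_neg h3] at h2
      omega
    obtain ⟨i, hi⟩ := hB
    exact ⟨(h1 i hi).2, fun i hi => (h1 i hi).1⟩
  · rintro ⟨rfl, h⟩ p
    rw [ex_apply, ex_apply]
    by_cases h1 : p.1 ∈ B ∧ p.2 = j
    · rw [if_pos h1, if_pos ⟨h h1.1, h1.2⟩]
    · rw [if_neg h1]
      exact Nat.zero_le _

/-- The coefficients of a multiple of a generator. -/
theorem coeff_mul_edge {d : ℕ} {A B : Finset (Fin n)} (hB : B.Nonempty) (j₀ : Fin d)
    (q : MvPolynomial (Fin n × Fin d) k) :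
    coeff (ex A j₀) (q * edgeP k d B) = if B ⊆ A then coeff (ex A j₀ - ex B j₀) q else 0 := by
  rw [edgeP_eq, Finset.mul_sum, coeff_sum]
  rw [Finset.sum_eq_single j₀]
  · rw [coeff_mul_monomial']
    by_cases h : B ⊆ A
    · rw [if_pos ((ex_le hB j₀ j₀).2 ⟨rfl, h⟩), if_pos h, mul_one]
    · rw [if_neg (fun h' => h ((ex_le hB j₀ j₀).1 h').2), if_neg h]
  · intro j _ hj
    rw [coeff_mul_monomial', if_neg (fun h' => hj ((ex_le hB j j₀).1 h').1)]
  · intro h
    exact absurd (Finset.mem_univ _) h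

/-- Elements with zero coefficient at `ex A j₀`. -/
theorem coeff_zero {d : ℕ} {A : Finset (Fin n)} (j₀ : Fin d) (E : Finset (Finset (Fin n)))
    (hne : ∀ B ∈ E, B.Nonempty) (hcl : ∀ B ∈ E, B ⊆ A → B = A) (l₁ : List (Finset (Fin n)))
    (hl : ∀ B ∈ l₁, B ∈ E ∧ B ≠ A) {p : MvPolynomial (Fin n × Fin d) k}
    (hp : p ∈ Ideal.ofList (l₁.map (edgeP k d)) ⊔
      orig (Fin n × Fin d) k * Ideal.span (edgeP k d '' (E : Set (Finset (Fin n))))) :
    coeff (ex A j₀) p = 0 := by
  obtain ⟨y, hy, z, hz, rfl⟩ := Submodule.mem_sup.1 hp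
  rw [coeff_add]
  have h1 : coeff (ex A j₀) y = 0 := by
    refine Submodule.span_induction (p := fun y _ => ∀ q, coeff (ex A j₀) (q * y) = 0)
      ?_ ?_ ?_ ?_ hy |> fun h => by simpa using h 1
    · intro x hx q
      obtain ⟨B, hB, rfl⟩ := List.mem_map.1 hx
      obtain ⟨h2, h3⟩ := hl B hB
      rw [coeff_mul_edge (hne B h2), if_neg (fun h => h3 (hcl B h2 h))]
    · intro q; simp
    · intro x y _ _ h2 h3 q
      rw [mul_add, coeff_add, h2, h3, add_zero]
    · intro a x _ h2 q
      rw [smul_eq_mul, ← mul_assoc]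
      exact h2 _
  have h2 : coeff (ex A j₀) z = 0 := by
    refine Submodule.mul_induction_on hz ?_ ?_
    · intro m hm w hw
      refine Submodule.span_induction
        (p := fun w _ => ∀ m ∈ orig (Fin n × Fin d) k, coeff (ex A j₀) (m * w) = 0)
        ?_ ?_ ?_ ?_ hw m hm
      · rintro x ⟨B, hB, rfl⟩ m hm
        have hBE : B ∈ E := by simpa using hB
        rw [coeff_mul_edge (hne B hBE)]
        split_ifs with h3
        · rw [hcl B hBE h3, tsub_self]
          exact mem_orig.1 hm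
        · rfl
      · intro m _; simp
      · intro x y _ _ h3 h4 m hm
        rw [mul_add, coeff_add, h3 m hm, h4 m hm, add_zero]
      · intro a x _ h3 m hm
        rw [smul_eq_mul, ← mul_assoc]
        exact h3 _ (Ideal.mul_mem_right _ _ hm)
    · intro x y h3 h4
      rw [coeff_add, h3, h4, add_zero]
  rw [h1, h2, add_zero]

/-- The ideal. -/
noncomputable def lssI (k : Type*) [Field k] {n : ℕ} (d : ℕ) (E : Finset (Finset (Fin n))) :
    Ideal (MvPolynomial (Fin n × Fin d) k) :=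
  Ideal.span (edgeP k d '' (E : Set (Finset (Fin n))))

theorem lssI_eq (d : ℕ) (E : Finset (Finset (Fin n))) :
    lssI k d E = Ideal.ofList (E.toList.map (edgeP k d)) := by
  unfold lssI Ideal.ofList
  congr 1
  ext x
  simp

/-- If the ideal is generated by a regular sequence, then its generators are a regular
sequence. -/
theorem gens_regular {d : ℕ} (hd : 1 ≤ d) (E : Finset (Finset (Fin n)))
    (hne : ∀ A ∈ E, A.Nonempty) (hcl : ∀ A ∈ E, ∀ B ∈ E, A ⊆ B → A = B)
    (g : List (MvPolynomial (Fin n × Fin d) k)) (hg : IsWeaklyRegular (MvPolynomial (Fin n × Fin d) k) g)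
    (hgI : Ideal.ofList g = lssI k d E) :
    IsWeaklyRegular (MvPolynomial (Fin n × Fin d) k) (E.toList.map (edgeP k d)) := by
  have hI0 : lssI k d E ≤ orig (Fin n × Fin d) k := by
    refine Ideal.span_le.2 ?_
    rintro x ⟨B, hB, rfl⟩
    exact edgeP_orig (hne B (by simpa using hB))
  apply global_of_local
  · intro x hx
    obtain ⟨A, _, rfl⟩ := List.mem_map.1 hx
    exact ⟨_, edgeP_homog A⟩
  set L := Localization.AtPrime (orig (Fin n × Fin d) k) with hL
  set φ := algebraMap (MvPolynomial (Fin n × Fin d) k) L with hφ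
  refine exchange ((lssI k d E).map φ) ?_ _ ?_ ?_ (g.map φ) (local_of_global g hg) ?_
  · rw [Ideal.map_le_iff_le_comap]
    intro x hx
    exact map_mem (hI0 hx)
  · intro x hx
    obtain ⟨y, hy, rfl⟩ := List.mem_map.1 hx
    refine Ideal.mem_map_of_mem _ ?_
    rw [lssI_eq]
    exact mem_ofList hy
  · intro l₁ x l₂ hl hx
    obtain ⟨m₁, m', e1, e2, e3⟩ := List.map_eq_append_iff.1 hl
    obtain ⟨y, m₂, e4, e5, e6⟩ := List.map_eq_cons_iff.1 e3
    obtain ⟨a₁, a', f1, f2, f3⟩ := List.map_eq_append_iff.1 e1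
    rw [e4] at f3
    obtain ⟨A, a₂, f4, f5, f6⟩ := List.map_eq_cons_iff.1 f3
    rw [f4] at f1
    have hAE : A ∈ E := by
      rw [← Finset.mem_toList, f1]
      simp
    have hnd := E.nodup_toList
    rw [f1] at hnd
    have hmax : IsLocalRing.maximalIdeal L = (orig (Fin n × Fin d) k).map φ :=
      (Localization.AtPrime.map_eq_maximalIdeal).symm
    rw [← e2, ← Ideal.map_ofList, hmax, ← Ideal.map_mul, ← Ideal.map_sup, ← e5,
      IsLocalization.algebraMap_mem_map_algebraMap_iff (orig (Fin n × Fin d) k).primeCompl] at hx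
    obtain ⟨t, ht, h2⟩ := hx
    have h3 := coeff_zero (A := A) ⟨0, hd⟩ E hne (fun B hB h => hcl B hB A hAE h) a₁ (by
      intro B hB
      refine ⟨?_, ?_⟩
      · rw [← Finset.mem_toList, f1]
        simp [hB]
      · rintro rfl
        rw [List.nodup_append] at hnd
        exact hnd.2.2 B hB B (by simp) rfl) (by rw [f2]; exact h2)
    rw [← f5, coeff_mul_edge (hne A hAE), if_pos (Finset.Subset.refl _), tsub_self] at h3
    exact ht (mem_orig.2 h3)
  · rw [← Ideal.map_ofList, hgI]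

end

end Pool.Agent.X45.LSS
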