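import Pool.Agent.X45.LSS.Basic

set_option autoImplicit false

/-!
Regular sequences of homogeneous polynomials: global and local at the origin.
-/

namespace Pool.Agent.X45.LSS
open RingTheory.Sequence MvPolynomial

section
variable {σ : Type*} {k : Type*} [Field k]

/-- The maximal ideal of the origin. -/
noncomputable def orig (σ : Type*) (k : Type*) [Field k] : Ideal (MvPolynomial σ k) :=
  RingHom.ker (constantCoeff : MvPolynomial σ k →+* k)

instance : (orig σ k).IsPrime := RingHom.ker_isPrime _

theorem mem_orig {p : MvPolynomial σ k} : p ∈ orig σ k ↔ coeff 0 p = 0 := by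
  unfold orig
  rw [RingHom.mem_ker]
  rfl

/-- The component of least degree of a product. -/
theorem comp_mul (t b : MvPolynomial σ k) (K : ℕ) (hb : ∀ m ∈ b.support, K ≤ m.degree) :
    homogeneousComponent K (t * b) = C (coeff 0 t) * homogeneousComponent K b := by
  classical
  ext m
  rw [coeff_homogeneousComponent, coeff_C_mul, coeff_homogeneousComponent]
  split_ifs with h
  · rw [coeff_mul]
    rw [Finset.sum_eq_single (0, m)]
    · rintro ⟨u, v⟩ huv hne
      rw [Finset.HasAntidiagonal.mem_antidiagonal] at huv
      simp only at huv ⊢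
      by_cases hv : v ∈ b.support
      · exfalso
        have h1 := hb v hv
        have h2 : u.degree + v.degree = m.degree := by
          rw [← huv]
          exact (map_add Finsupp.degree u v).symm
        have h3 : u.degree = 0 := by omega
        have h4 : u = 0 := by rwa [Finsupp.degree_eq_zero_iff] at h3
        subst h4
        apply hne
        rw [← huv, zero_add]
      · rw [notMem_support_iff.1 hv, mul_zero]
    · intro h
      exact absurd (Finset.HasAntidiagonal.mem_antidiagonal.2 (zero_add m)) h
  · simp

attribute [local instance] MvPolynomial.gradedAlgebra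

theorem ofList_homog (l : List (MvPolynomial σ k)) (hl : ∀ x ∈ l, ∃ e, x.IsHomogeneous e) :
    (Ideal.ofList l).IsHomogeneous (homogeneousSubmodule σ k) := by
  refine Ideal.homogeneous_span _ _ fun x hx => ?_
  obtain ⟨e, he⟩ := hl x hx
  exact ⟨e, he⟩

/-- A homogeneous ideal is saturated with respect to polynomials with a constant term. -/
theorem sat (l : List (MvPolynomial σ k)) (hl : ∀ x ∈ l, ∃ e, x.IsHomogeneous e)
    {t b : MvPolynomial σ k} (ht : coeff 0 t ≠ 0) (h : t * b ∈ Ideal.ofList l) :
    b ∈ Ideal.ofList l := by
  have hh := ofList_homog l hl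
  rw [mem_iff_homogeneousComponent_mem hh]
  intro n
  induction n using Nat.strong_induction_on with
  | _ n ih =>
    set b' : MvPolynomial σ k := b - ∑ j ∈ Finset.range n, homogeneousComponent j b with hb'
    have h1 : ∑ j ∈ Finset.range n, homogeneousComponent j b ∈ Ideal.ofList l :=
      sum_mem fun j hj => ih j (Finset.mem_range.1 hj)
    have h2 : t * b' ∈ Ideal.ofList l := by
      rw [hb', mul_sub]
      exact sub_mem h (Ideal.mul_mem_left _ _ h1)
    have h3 : ∀ m, coeff m b' = if m.degree < n then 0 else coeff m b := by
      intro m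
      rw [hb', coeff_sub, coeff_sum]
      have : ∀ j ∈ Finset.range n, coeff m (homogeneousComponent j b) =
          if j = m.degree then coeff m b else 0 := by
        intro j _
        rw [coeff_homogeneousComponent]
        by_cases e : m.degree = j
        · rw [if_pos e, if_pos e.symm]
        · rw [if_neg e, if_neg (Ne.symm e)]
      rw [Finset.sum_congr rfl this, Finset.sum_ite_eq']
      by_cases e : m.degree < n
      · rw [if_pos (Finset.mem_range.2 e), if_pos e, sub_self]
      · rw [if_neg (fun h => e (Finset.mem_range.1 h)), if_neg e, sub_zero]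
    have h4 : ∀ m ∈ b'.support, n ≤ m.degree := by
      intro m hm
      by_contra e
      rw [mem_support_iff, h3 m, if_pos (by omega)] at hm
      exact hm rfl
    have h5 := comp_mul t b' n h4
    have h6 : homogeneousComponent n b' = homogeneousComponent n b := by
      ext m
      rw [coeff_homogeneousComponent, coeff_homogeneousComponent, h3]
      by_cases e : m.degree = n
      · rw [if_pos e, if_pos e, if_neg (by omega)]
      · rw [if_neg e, if_neg e]
    have h7 := homogeneousComponent_mem_of_mem hh h2 n
    rw [h5, h6] at h7
    have h8 : homogeneousComponent n b =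
        C (coeff 0 t)⁻¹ * (C (coeff 0 t) * homogeneousComponent n b) := by
      rw [← mul_assoc, ← C_mul, inv_mul_cancel₀ ht, C_1, one_mul]
    rw [h8]
    exact Ideal.mul_mem_left _ _ h7

/-- From the local ring of the origin to the polynomial ring. -/
theorem global_of_local (l : List (MvPolynomial σ k)) (hl : ∀ x ∈ l, ∃ e, x.IsHomogeneous e)
    (h : IsWeaklyRegular (Localization.AtPrime (orig σ k))
      (l.map (algebraMap (MvPolynomial σ k) (Localization.AtPrime (orig σ k))))) :
    IsWeaklyRegular (MvPolynomial σ k) l := by
  rw [wr_iff] at h ⊢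
  intro l₁ x l₂ hll b hb
  have h1 := h (l₁.map (algebraMap _ _)) (algebraMap _ _ x) (l₂.map (algebraMap _ _))
    (by rw [hll, List.map_append, List.map_cons]) (algebraMap _ _ b) (by
      rw [← map_mul, ← Ideal.map_ofList]
      exact Ideal.mem_map_of_mem _ hb)
  rw [← Ideal.map_ofList, IsLocalization.algebraMap_mem_map_algebraMap_iff (orig σ k).primeCompl]
    at h1
  obtain ⟨t, ht, h2⟩ := h1
  refine sat l₁ (fun y hy => hl y (by rw [hll]; simp [hy])) (t := t) ?_ h2
  intro h0
  exact ht (mem_orig.2 h0)

theorem local_of_global (l : List (MvPolynomial σ k)) (h : IsWeaklyRegular (MvPolynomial σ k) l) :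
    IsWeaklyRegular (Localization.AtPrime (orig σ k))
      (l.map (algebraMap (MvPolynomial σ k) (Localization.AtPrime (orig σ k)))) :=
  h.of_isLocalization (Localization.AtPrime (orig σ k)) (orig σ k).primeCompl

theorem map_mem {p : MvPolynomial σ k} (hp : p ∈ orig σ k) :
    algebraMap (MvPolynomial σ k) (Localization.AtPrime (orig σ k)) p ∈
      IsLocalRing.maximalIdeal (Localization.AtPrime (orig σ k)) :=
  (IsLocalization.AtPrime.to_map_mem_maximal_iff _ (orig σ k) p).2 hp

/-- Homogeneous polynomials without constant term may be permuted. -/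
theorem perm [Finite σ] {l l' : List (MvPolynomial σ k)}
    (hl : ∀ x ∈ l, ∃ e, x.IsHomogeneous e) (h0 : ∀ x ∈ l, x ∈ orig σ k) (hp : l.Perm l')
    (h : IsWeaklyRegular (MvPolynomial σ k) l) : IsWeaklyRegular (MvPolynomial σ k) l' := by
  apply global_of_local
  · exact fun x hx => hl x (hp.mem_iff.2 hx)
  · refine IsLocalRing.isWeaklyRegular_of_perm_of_subset_maximalIdeal (local_of_global l h)
      (hp.map _) ?_
    intro r hr
    obtain ⟨x, hx, rfl⟩ := List.mem_map.1 hr
    exact map_mem (h0 x hx)

end

end Pool.Agent.X45.LSS
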