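import Pool.Agent.X45.LSS.Edge

set_option autoImplicit false

/-!
One more column of variables.
-/

namespace Pool.Agent.X45.LSS
open RingTheory.Sequence MvPolynomial

section
variable {n : ℕ} {k : Type*} [Field k]

/-- The new variables go to `0`. -/
noncomputable def kill (k : Type*) [Field k] (n d : ℕ) :
    MvPolynomial (Fin n × Fin (d + 1)) k →ₐ[k] MvPolynomial (Fin n × Fin d) k :=
  aeval fun p => Fin.lastCases (motive := fun _ => MvPolynomial (Fin n × Fin d) k) 0
    (fun j => X (p.1, j)) p.2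

/-- The old variables as new ones. -/
noncomputable def lift (k : Type*) [Field k] (n d : ℕ) :
    MvPolynomial (Fin n × Fin d) k →ₐ[k] MvPolynomial (Fin n × Fin (d + 1)) k :=
  aeval fun p => X (p.1, p.2.castSucc)

theorem kill_X_last {d : ℕ} (i : Fin n) : kill k n d (X (i, Fin.last d)) = 0 := by
  unfold kill
  rw [aeval_X]
  simp

theorem kill_X_cast {d : ℕ} (i : Fin n) (j : Fin d) :
    kill k n d (X (i, j.castSucc)) = X (i, j) := by
  unfold kill
  rw [aeval_X]
  simp

theorem kill_edge {d : ℕ} {A : Finset (Fin n)} (hA : A.Nonempty) :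
    kill k n d (edgeP k (d + 1) A) = edgeP k d A := by
  unfold edgeP
  rw [map_sum, Fin.sum_univ_castSucc]
  have h1 : kill k n d (∏ i ∈ A, X (i, Fin.last d)) = 0 := by
    rw [map_prod]
    obtain ⟨i, hi⟩ := hA
    exact Finset.prod_eq_zero hi (kill_X_last i)
  rw [h1, add_zero]
  refine Finset.sum_congr rfl fun j _ => ?_
  rw [map_prod]
  exact Finset.prod_congr rfl fun i _ => kill_X_cast i j

theorem kill_lift {d : ℕ} (p : MvPolynomial (Fin n × Fin d) k) :
    kill k n d (lift k n d p) = p := by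
  have h : (kill k n d).comp (lift k n d) = AlgHom.id k _ := by
    ext p
    simp only [AlgHom.comp_apply, AlgHom.id_apply]
    unfold lift
    rw [aeval_X, kill_X_cast]
  have h2 := DFunLike.congr_fun h p
  simpa using h2

/-- The new variables. -/
noncomputable def newV (k : Type*) [Field k] (n d : ℕ) :
    List (MvPolynomial (Fin n × Fin (d + 1)) k) :=
  (List.finRange n).map fun i => X (i, Fin.last d)

theorem sub_lift_kill {d : ℕ} (p : MvPolynomial (Fin n × Fin (d + 1)) k) :
    p - lift k n d (kill k n d p) ∈ Ideal.ofList (newV k n d) := by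
  set J := Ideal.ofList (newV k n d) with hJ
  have h : (Ideal.Quotient.mkₐ k J) =
      (Ideal.Quotient.mkₐ k J).comp ((lift k n d).comp (kill k n d)) := by
    ext ⟨i, j⟩
    simp only [AlgHom.comp_apply]
    induction j using Fin.lastCases with
    | last =>
      rw [kill_X_last, map_zero, map_zero]
      refine Ideal.Quotient.eq_zero_iff_mem.2 (mem_ofList ?_)
      exact List.mem_map.2 ⟨i, List.mem_finRange i, rfl⟩
    | cast j =>
      rw [kill_X_cast]
      unfold lift
      rw [aeval_X]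
  have h2 := congrArg (fun f => f p) h
  simp only [AlgHom.comp_apply, Ideal.Quotient.mkₐ_eq_mk] at h2
  exact Ideal.Quotient.eq.1 h2

theorem part1 {d : ℕ} (E : List (Finset (Fin n))) (hne : ∀ A ∈ E, A.Nonempty)
    (h : ∀ l₁ x l₂, E.map (edgeP k d) = l₁ ++ x :: l₂ →
      ∀ b, b * x ∈ Ideal.ofList l₁ → b ∈ Ideal.ofList l₁)
    (l₁ a : List (MvPolynomial (Fin n × Fin (d + 1)) k)) (x) (l₂)
    (h1 : l₁ = newV k n d ++ a) (h2 : E.map (edgeP k (d + 1)) = a ++ x :: l₂) (b)
    (hb : b * x ∈ Ideal.ofList l₁) : b ∈ Ideal.ofList l₁ := by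
  obtain ⟨E₁, E', e1, e2, e3⟩ := List.map_eq_append_iff.1 h2
  obtain ⟨A, E₂, e4, e5, e6⟩ := List.map_eq_cons_iff.1 e3
  have hA : A.Nonempty := hne A (by rw [e1, e4]; simp)
  have hE₁ : ∀ B ∈ E₁, B.Nonempty := fun B hB => hne B (by rw [e1]; simp [hB])
  have k1 : kill k n d b * edgeP k d A ∈ Ideal.ofList (E₁.map (edgeP k d)) := by
    rw [← kill_edge (k := k) (d := d) hA, ← map_mul, e5]
    have h3 : ∀ y ∈ Ideal.ofList l₁, kill k n d y ∈ Ideal.ofList (E₁.map (edgeP k d)) := by
      intro y hy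
      have h4 : Ideal.ofList l₁ ≤
          (Ideal.ofList (E₁.map (edgeP k d))).comap (kill k n d).toRingHom := by
        refine ofList_le fun z hz => ?_
        rw [Ideal.mem_comap]
        rw [h1] at hz
        rcases List.mem_append.1 hz with hz | hz
        · obtain ⟨i, _, rfl⟩ := List.mem_map.1 hz
          have : (kill k n d).toRingHom (X (i, Fin.last d)) = 0 := kill_X_last i
          rw [this]
          exact Ideal.zero_mem _
        · rw [← e2] at hz
          obtain ⟨B, hB, rfl⟩ := List.mem_map.1 hz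
          have : (kill k n d).toRingHom (edgeP k (d + 1) B) = edgeP k d B :=
            kill_edge (hE₁ B hB)
          rw [this]
          exact mem_ofList (List.mem_map.2 ⟨B, hB, rfl⟩)
      exact h4 hy
    exact h3 _ hb
  have k2 := h (E₁.map (edgeP k d)) (edgeP k d A) (E₂.map (edgeP k d))
    (by rw [e1, e4, List.map_append, List.map_cons]) _ k1
  -- lift back
  have k3 : lift k n d (kill k n d b) ∈ Ideal.ofList l₁ := by
    have h4 : Ideal.ofList (E₁.map (edgeP k d)) ≤
        (Ideal.ofList l₁).comap (lift k n d).toRingHom := by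
      refine ofList_le fun z hz => ?_
      rw [Ideal.mem_comap]
      obtain ⟨B, hB, rfl⟩ := List.mem_map.1 hz
      have e7 : (lift k n d).toRingHom (edgeP k d B) = edgeP k (d + 1) B -
          (edgeP k (d + 1) B - lift k n d (kill k n d (edgeP k (d + 1) B))) := by
        rw [kill_edge (hE₁ B hB)]
        have : (lift k n d).toRingHom (edgeP k d B) = lift k n d (edgeP k d B) := rfl
        rw [this]
        ring
      rw [e7, h1, Ideal.ofList_append]
      refine sub_mem ((le_sup_right : Ideal.ofList a ≤ _) ?_)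
        ((le_sup_left : Ideal.ofList (newV k n d) ≤ _) (sub_lift_kill _))
      rw [← e2]
      exact mem_ofList (List.mem_map.2 ⟨B, hB, rfl⟩)
    exact h4 k2
  have k4 : b - lift k n d (kill k n d b) ∈ Ideal.ofList l₁ := by
    rw [h1, Ideal.ofList_append]
    exact (le_sup_left : Ideal.ofList (newV k n d) ≤ _) (sub_lift_kill _)
  have := add_mem k4 k3
  rwa [sub_add_cancel] at this

theorem part2 {d : ℕ} (l₁ c' : List (MvPolynomial (Fin n × Fin (d + 1)) k)) (x)
    (h1 : newV k n d = l₁ ++ x :: c') (b)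
    (hb : b * x ∈ Ideal.ofList l₁) : b ∈ Ideal.ofList l₁ := by
  obtain ⟨I₁, I', e1, e2, e3⟩ := List.map_eq_append_iff.1 h1
  obtain ⟨i, I₂, e4, e5, e6⟩ := List.map_eq_cons_iff.1 e3
  have hnd := List.nodup_finRange n
  rw [e1, e4, List.nodup_append] at hnd
  have hi : i ∉ I₁ := fun h => hnd.2.2 i h i (by simp) rfl
  have e7 : Ideal.ofList l₁ = Ideal.span ((X : Fin n × Fin (d + 1) → MvPolynomial _ k) ''
      {p | p.1 ∈ I₁ ∧ p.2 = Fin.last d}) := by
    rw [← e2]
    unfold Ideal.ofList
    congr 1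
    ext y
    constructor
    · intro hy
      obtain ⟨i', hi', rfl⟩ := List.mem_map.1 hy
      exact ⟨(i', Fin.last d), ⟨hi', rfl⟩, rfl⟩
    · rintro ⟨⟨i', j'⟩, ⟨hi', hj'⟩, rfl⟩
      simp only at hi' hj'
      subst hj'
      exact List.mem_map.2 ⟨i', hi', rfl⟩
  rw [e7, mem_ideal_span_X_image] at hb ⊢
  intro m hm
  rw [← e5] at hb
  have h2 : m + Finsupp.single (i, Fin.last d) 1 ∈ (b * X (i, Fin.last d)).support := by
    rw [mem_support_iff, coeff_mul_X]
    exact mem_support_iff.1 hm
  obtain ⟨p, hp, hp2⟩ := hb _ h2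
  refine ⟨p, hp, ?_⟩
  rw [Finsupp.add_apply, Finsupp.single_apply, if_neg, add_zero] at hp2
  · exact hp2
  · rintro rfl
    exact hi hp.1

/-- The new variables followed by the new generators are a regular sequence. -/
theorem append_regular {d : ℕ} (E : List (Finset (Fin n))) (hne : ∀ A ∈ E, A.Nonempty)
    (h : IsWeaklyRegular (MvPolynomial (Fin n × Fin d) k) (E.map (edgeP k d))) :
    IsWeaklyRegular (MvPolynomial (Fin n × Fin (d + 1)) k)
      (newV k n d ++ E.map (edgeP k (d + 1))) := by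
  rw [wr_iff] at h ⊢
  intro l₁ x l₂ hl b hb
  rcases List.append_eq_append_iff.1 hl with ⟨a, h1, h2⟩ | ⟨c, h1, h2⟩
  · exact part1 E hne h l₁ a x l₂ h1 h2 b hb
  · rcases c with _ | ⟨y, c'⟩
    · exact part1 E hne h l₁ [] x l₂ (by rw [h1]; simp) (by rw [h2]; simp) b hb
    · rw [List.cons_append, List.cons.injEq] at h2
      obtain ⟨rfl, _⟩ := h2
      exact part2 l₁ c' x h1 b hb

/-- The generators stay a regular sequence. -/
theorem step {d : ℕ} (E : List (Finset (Fin n))) (hne : ∀ A ∈ E, A.Nonempty)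
    (h : IsWeaklyRegular (MvPolynomial (Fin n × Fin d) k) (E.map (edgeP k d))) :
    IsWeaklyRegular (MvPolynomial (Fin n × Fin (d + 1)) k) (E.map (edgeP k (d + 1))) := by
  refine wr_prefix (l₂ := newV k n d) (perm ?_ ?_ List.perm_append_comm (append_regular E hne h))
  · intro x hx
    rcases List.mem_append.1 hx with hx | hx
    · obtain ⟨i, _, rfl⟩ := List.mem_map.1 hx
      exact ⟨1, isHomogeneous_X _ _⟩
    · obtain ⟨A, _, rfl⟩ := List.mem_map.1 hx
      exact ⟨_, edgeP_homog A⟩
  · intro x hx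
    rcases List.mem_append.1 hx with hx | hx
    · obtain ⟨i, _, rfl⟩ := List.mem_map.1 hx
      rw [mem_orig]
      simp
    · obtain ⟨A, hA, rfl⟩ := List.mem_map.1 hx
      exact edgeP_orig (hne A hA)

end

end Pool.Agent.X45.LSS
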